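import Mathlib
import Pool.Agent.H23.ULSEDefs

set_option autoImplicit false

namespace Pool.Agent.Results.MP_9fbb3c_co.Counter
open Pool.Agent.H23.ULSE Finset

theorem exB : SymBIBD 16 10 fun i => univ.filter fun x =>
    (x.val / 4 = i.val / 4 ↔ x.val % 4 = i.val % 4) :=
  ⟨by norm_num, by norm_num, by decide +kernel, 6, by norm_num, by decide +kernel⟩

theorem count {v : ℕ} (B : Fin v → Finset (Fin v)) (lam : ℕ)
    (h : ∀ x y : Fin v, x ≠ y → (univ.filter fun i => x ∈ B i ∧ y ∈ B i).card = lam)
    (C : Finset (Fin v)) : ∑ i, (B i ∩ C).offDiag.card = lam * C.offDiag.card := by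
  have e : ∀ i, (B i ∩ C).offDiag.card = ∑ p ∈ C.offDiag, if p.1 ∈ B i ∧ p.2 ∈ B i then 1 else 0 := by
    intro i
    rw [← Finset.card_filter]
    congr 1
    ext p
    simp only [mem_offDiag, mem_inter, mem_filter]
    tauto
  simp only [e]
  rw [Finset.sum_comm, Finset.card_eq_sum_ones C.offDiag, Finset.mul_sum]
  refine Finset.sum_congr rfl fun p hp => ?_
  rw [← Finset.card_filter, h _ _ (mem_offDiag.1 hp).2.2, mul_one]

theorem noCol (B : Fin 16 → Finset (Fin 16)) (hB : SymBIBD 16 10 B) (f : Fin 16 → Fin 6) :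
    ¬ ZeroULSE 16 10 6 B f := by
  rintro ⟨hs, -, hf⟩
  obtain ⟨-, -, hk, lam, -, hl⟩ := hB
  have h6 : lam = 6 := by
    have := count B lam hl univ
    simp only [inter_univ, offDiag_card, hk, card_univ, Fintype.card_fin, sum_const,
      smul_eq_mul] at this
    omega
  subst h6
  -- replication number
  have hr : ∀ x, (univ.filter fun i => x ∈ B i).card = 10 := by
    intro x
    have e : ∑ y ∈ univ.erase x, (univ.filter fun i => x ∈ B i ∧ y ∈ B i).card = 90 := by
      rw [Finset.sum_congr rfl (fun y hy => hl x y (ne_of_mem_erase hy).symm)]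
      simp
    simp only [Finset.card_filter] at e
    rw [Finset.sum_comm] at e
    have e2 : ∀ i, (∑ y ∈ univ.erase x, if x ∈ B i ∧ y ∈ B i then 1 else 0) =
        9 * if x ∈ B i then 1 else 0 := by
      intro i
      by_cases hx : x ∈ B i
      · simp only [hx, true_and, if_true, mul_one]
        rw [← Finset.card_filter]
        have : (univ.erase x).filter (fun y => y ∈ B i) = (B i).erase x := by
          ext y; simp
        rw [this, card_erase_of_mem hx, hk]
      · simp [hx]
    simp only [e2] at e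
    rw [← Finset.mul_sum, ← Finset.card_filter] at e
    omega
  let C : Finset (Fin 16) := univ.filter fun x => f x = 0
  have hC : 1 ≤ C.card := by
    obtain ⟨x, hx⟩ := hs 0
    exact card_pos.2 ⟨x, by simp [C, hx]⟩
  have h1 : ∀ i, (B i ∩ C).offDiag.card = (B i ∩ C).card := by
    intro i
    have e : B i ∩ C = (B i).filter fun x => f x = 0 := by
      ext y; simp [C]
    obtain ⟨c, hc, hd⟩ := hf i
    rw [offDiag_card, e]
    by_cases h0 : (0 : Fin 6) = c
    · subst h0
      rw [Finset.filter_eq_empty_iff.2 hc]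
      simp
    · rw [hd 0 h0]
  have h2 : ∑ i, (B i ∩ C).card = 10 * C.card := by
    have e : ∀ i, (B i ∩ C).card = ∑ x ∈ C, if x ∈ B i then 1 else 0 := by
      intro i
      rw [← Finset.card_filter, inter_comm, filter_mem_eq_inter]
    simp only [e]
    rw [Finset.sum_comm, Finset.card_eq_sum_ones C, Finset.mul_sum]
    refine Finset.sum_congr rfl fun p _ => ?_
    rw [← Finset.card_filter, hr, mul_one]
  have h3 := count B 6 hl C
  simp only [h1] at h3
  rw [h2, offDiag_card] at h3
  have h4 : C.card ≤ 16 := by simpa using card_le_univ C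
  generalize C.card = s at *
  interval_cases s <;> omega

theorem result : ¬ ∀ v k l : ℕ, 0 < v → 0 < k → 0 < l →
    (v : ℚ) = l * (l - 2) * k / ((l - 1) ^ 2 - k) → (∃ B, SymBIBD v k B) →
    ∃ B f, SymBIBD v k B ∧ ZeroULSE v k l B f := by
  intro h
  obtain ⟨B, f, h1, h2⟩ := h 16 10 6 (by norm_num) (by norm_num) (by norm_num) (by norm_num)
    ⟨_, exB⟩
  exact noCol B h1 f h2

end Pool.Agent.Results.MP_9fbb3c_co.Counter
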